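import Pool.Agent.H76.LR.Defs

/-!
MODULE Basic: first properties of `hI`, `LI` (Lemma R).
-/

set_option autoImplicit false

open MvPolynomial Filter

namespace Pool.H76.LR

variable {k : Type*} [Field k] {σ : Type*}

theorem mem_VI (I : Ideal (MvPolynomial σ k)) (D : ℕ) (x : MvPolynomial σ k ⧸ I) :
    x ∈ VI I D ↔ ∃ F : MvPolynomial σ k, F.totalDegree ≤ D ∧ Ideal.Quotient.mk I F = x := by
  unfold VI
  rw [Submodule.mem_map]
  constructor
  · rintro ⟨F, hF, rfl⟩
    exact ⟨F, (mem_restrictTotalDegree _ _ _).1 hF, rfl⟩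
  · rintro ⟨F, hF, rfl⟩
    exact ⟨F, (mem_restrictTotalDegree _ _ _).2 hF, rfl⟩

instance VI_finite [Finite σ] (I : Ideal (MvPolynomial σ k)) (D : ℕ) :
    Module.Finite k (VI I D) := by
  unfold VI
  infer_instance

theorem VI_mono (I : Ideal (MvPolynomial σ k)) {D E : ℕ} (h : D ≤ E) : VI I D ≤ VI I E := by
  intro x hx
  rw [mem_VI] at hx ⊢
  obtain ⟨F, hF, rfl⟩ := hx
  exact ⟨F, hF.trans h, rfl⟩

theorem hI_mono [Finite σ] (I : Ideal (MvPolynomial σ k)) {D E : ℕ} (h : D ≤ E) :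
    hI I D ≤ hI I E := by
  unfold hI
  exact Submodule.finrank_mono (VI_mono I h)

theorem hI_anti [Finite σ] {I J : Ideal (MvPolynomial σ k)} (h : I ≤ J) (D : ℕ) :
    hI J D ≤ hI I D := by
  unfold hI
  have hmap : (VI I D).map (Ideal.Quotient.factorₐ k h).toLinearMap = VI J D := by
    ext x
    rw [Submodule.mem_map, mem_VI]
    constructor
    · rintro ⟨y, hy, rfl⟩
      rw [mem_VI] at hy
      obtain ⟨F, hF, rfl⟩ := hy
      exact ⟨F, hF, rfl⟩
    · rintro ⟨F, hF, rfl⟩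
      exact ⟨Ideal.Quotient.mk I F, by rw [mem_VI]; exact ⟨F, hF, rfl⟩, rfl⟩
  rw [← hmap]
  exact Submodule.finrank_map_le _ _

theorem hI_top (D : ℕ) : hI (⊤ : Ideal (MvPolynomial σ k)) D = 0 := by
  unfold hI
  have : Subsingleton (MvPolynomial σ k ⧸ (⊤ : Ideal (MvPolynomial σ k))) :=
    Ideal.Quotient.subsingleton_iff.2 rfl
  exact Module.finrank_zero_of_subsingleton

/-- Degree `≤ n` representatives modulo powers of the ideal of a point. -/
theorem sub_C_eval_mem (ξ : σ → k) (p : MvPolynomial σ k) : p - C (eval ξ p) ∈ mP ξ := by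
  induction p using MvPolynomial.induction_on with
  | C a => simp
  | add p q hp hq =>
    have : p + q - C (eval ξ (p + q)) = (p - C (eval ξ p)) + (q - C (eval ξ q)) := by
      rw [map_add, map_add]; ring
    rw [this]
    exact Ideal.add_mem _ hp hq
  | mul_X p i hp =>
    have : p * X i - C (eval ξ (p * X i)) =
        (p - C (eval ξ p)) * X i + C (eval ξ p) * (X i - C (ξ i)) := by
      rw [map_mul, eval_X, C_mul]; ring
    rw [this]
    exact Ideal.add_mem _ (Ideal.mul_mem_right _ _ hp)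
      (Ideal.mul_mem_left _ _ (Ideal.subset_span ⟨i, rfl⟩))

theorem totalDegree_X_sub_C_le (ξ : σ → k) (i : σ) :
    (X i - C (ξ i) : MvPolynomial σ k).totalDegree ≤ 1 := by
  refine (totalDegree_sub _ _).trans ?_
  rw [totalDegree_C]
  refine max_le ?_ (Nat.zero_le _)
  exact (totalDegree_X i).le

theorem exists_rep_mP (ξ : σ → k) (x : MvPolynomial σ k) (hx : x ∈ mP ξ) :
    ∃ q : MvPolynomial σ k, q.totalDegree ≤ 1 ∧ x - q ∈ mP ξ ^ 2 := by
  unfold mP at hx
  induction hx using Submodule.span_induction with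
  | mem x hx =>
    obtain ⟨i, rfl⟩ := hx
    exact ⟨X i - C (ξ i), totalDegree_X_sub_C_le ξ i, by simp⟩
  | zero => exact ⟨0, by simp, by simp⟩
  | add x y _ _ hx hy =>
    obtain ⟨q, hq, hq2⟩ := hx
    obtain ⟨q', hq', hq2'⟩ := hy
    refine ⟨q + q', (totalDegree_add _ _).trans (max_le hq hq'), ?_⟩
    have : x + y - (q + q') = (x - q) + (y - q') := by ring
    rw [this]
    exact Ideal.add_mem _ hq2 hq2'
  | smul a x hx' hx =>
    obtain ⟨q, hq, hq2⟩ := hx
    refine ⟨C (eval ξ a) * q, ?_, ?_⟩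
    · refine (totalDegree_mul _ _).trans ?_
      rw [totalDegree_C]
      omega
    · have h1 : a • x - C (eval ξ a) * q = (a - C (eval ξ a)) * x + C (eval ξ a) * (x - q) := by
        rw [smul_eq_mul]; ring
      rw [h1]
      refine Ideal.add_mem _ ?_ (Ideal.mul_mem_left _ _ hq2)
      rw [pow_two]
      exact Ideal.mul_mem_mul (sub_C_eval_mem ξ a) hx'

theorem exists_rep_pow (ξ : σ → k) (n : ℕ) (x : MvPolynomial σ k) (hx : x ∈ mP ξ ^ n) :
    ∃ q : MvPolynomial σ k, q.totalDegree ≤ n ∧ x - q ∈ mP ξ ^ (n + 1) := by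
  induction n generalizing x with
  | zero =>
    refine ⟨C (eval ξ x), by rw [totalDegree_C], ?_⟩
    rw [zero_add, pow_one]
    exact sub_C_eval_mem ξ x
  | succ n ih =>
    rw [pow_succ] at hx
    induction hx using Submodule.mul_induction_on' with
    | mem_mul_mem a ha b hb =>
      obtain ⟨qa, hqa, hqa2⟩ := ih a ha
      obtain ⟨qb, hqb, hqb2⟩ := exists_rep_mP ξ b hb
      refine ⟨qa * qb, (totalDegree_mul _ _).trans (by omega), ?_⟩
      have h1 : a * b - qa * qb = (a - qa) * b + qa * (b - qb) := by ring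
      rw [h1]
      have hqam : qa ∈ mP ξ ^ n := by
        have h2 : qa = a - (a - qa) := by ring
        rw [h2]
        exact Ideal.sub_mem _ ha (Ideal.pow_le_pow_right (Nat.le_succ n) hqa2)
      refine Ideal.add_mem _ ?_ ?_
      · rw [pow_succ]
        exact Ideal.mul_mem_mul hqa2 hb
      · have h3 : n + 1 + 1 = n + 2 := rfl
        rw [h3, pow_add]
        exact Ideal.mul_mem_mul hqam hqb2
    | add x _ y _ hx hy =>
      obtain ⟨q, hq, hq2⟩ := hx
      obtain ⟨q', hq', hq2'⟩ := hy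
      refine ⟨q + q', (totalDegree_add _ _).trans (max_le hq hq'), ?_⟩
      have : x + y - (q + q') = (x - q) + (y - q') := by ring
      rw [this]
      exact Ideal.add_mem _ hq2 hq2'

theorem exists_rep (ξ : σ → k) (n : ℕ) (x : MvPolynomial σ k) :
    ∃ q : MvPolynomial σ k, q.totalDegree ≤ n ∧ x - q ∈ mP ξ ^ (n + 1) := by
  induction n with
  | zero => exact exists_rep_pow ξ 0 x (by simp)
  | succ n ih =>
    obtain ⟨q, hq, hq2⟩ := ih
    obtain ⟨q', hq', hq2'⟩ := exists_rep_pow ξ (n + 1) _ hq2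
    refine ⟨q + q', (totalDegree_add _ _).trans (max_le (hq.trans (Nat.le_succ n)) hq'), ?_⟩
    have : x - (q + q') = x - q - q' := by ring
    rw [this]
    exact hq2'

/-- The map from `VI I K` to `R/(I + m^(K+1))`. -/
noncomputable def toLoc (ξ : σ → k) (I : Ideal (MvPolynomial σ k)) (K : ℕ) :
    VI I K →ₗ[k] (MvPolynomial σ k ⧸ (I ⊔ mP ξ ^ (K + 1))) :=
  (Ideal.Quotient.factorₐ k (le_sup_left : I ≤ I ⊔ mP ξ ^ (K + 1))).toLinearMap.domRestrict _

theorem toLoc_surjective (ξ : σ → k) (I : Ideal (MvPolynomial σ k)) (K : ℕ) :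
    Function.Surjective (toLoc ξ I K) := by
  intro x
  obtain ⟨x, rfl⟩ := Ideal.Quotient.mk_surjective x
  obtain ⟨q, hq, hq2⟩ := exists_rep ξ K x
  refine ⟨⟨Ideal.Quotient.mk I q, (mem_VI I K _).2 ⟨q, hq, rfl⟩⟩, ?_⟩
  change Ideal.Quotient.mk (I ⊔ mP ξ ^ (K + 1)) q = Ideal.Quotient.mk (I ⊔ mP ξ ^ (K + 1)) x
  rw [Ideal.Quotient.eq]
  have : q - x = -(x - q) := by ring
  rw [this]
  exact Ideal.neg_mem_iff _ |>.2 ((le_sup_right : mP ξ ^ (K + 1) ≤ I ⊔ mP ξ ^ (K + 1)) hq2)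

instance loc_finite [Finite σ] (ξ : σ → k) (I : Ideal (MvPolynomial σ k)) (K : ℕ) :
    Module.Finite k (MvPolynomial σ k ⧸ (I ⊔ mP ξ ^ K)) := by
  cases K with
  | zero =>
    have : Subsingleton (MvPolynomial σ k ⧸ (I ⊔ mP ξ ^ 0)) := by
      refine Ideal.Quotient.subsingleton_iff.2 ?_
      rw [pow_zero, Ideal.one_eq_top, sup_top_eq]
    exact Module.Finite.of_finite
  | succ K => exact Module.Finite.of_surjective _ (toLoc_surjective ξ I K)

theorem LI_le_hI [Finite σ] (ξ : σ → k) (I : Ideal (MvPolynomial σ k)) (K : ℕ) :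
    LI ξ I (K + 1) ≤ hI I K := by
  unfold LI hI
  exact LinearMap.finrank_le_finrank_of_surjective (toLoc_surjective ξ I K)

theorem LI_zero (ξ : σ → k) (I : Ideal (MvPolynomial σ k)) : LI ξ I 0 = 0 := by
  unfold LI
  have : Subsingleton (MvPolynomial σ k ⧸ (I ⊔ mP ξ ^ 0)) := by
    refine Ideal.Quotient.subsingleton_iff.2 ?_
    rw [pow_zero, Ideal.one_eq_top, sup_top_eq]
  exact Module.finrank_zero_of_subsingleton

theorem finrank_quot_le_of_le {A B : Ideal (MvPolynomial σ k)} (h : A ≤ B)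
    [Module.Finite k (MvPolynomial σ k ⧸ A)] :
    Module.finrank k (MvPolynomial σ k ⧸ B) ≤ Module.finrank k (MvPolynomial σ k ⧸ A) := by
  refine LinearMap.finrank_le_finrank_of_surjective
    (f := (Ideal.Quotient.factorₐ k h).toLinearMap) ?_
  intro x
  obtain ⟨x, rfl⟩ := Ideal.Quotient.mk_surjective x
  exact ⟨Ideal.Quotient.mk A x, rfl⟩

theorem LI_mono [Finite σ] (ξ : σ → k) (I : Ideal (MvPolynomial σ k)) {K L : ℕ} (h : K ≤ L) :
    LI ξ I K ≤ LI ξ I L := by
  unfold LI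
  exact finrank_quot_le_of_le (sup_le_sup_left (Ideal.pow_le_pow_right h) I)

theorem LI_anti [Finite σ] (ξ : σ → k) {I J : Ideal (MvPolynomial σ k)} (h : I ≤ J) (K : ℕ) :
    LI ξ J K ≤ LI ξ I K := by
  unfold LI
  exact finrank_quot_le_of_le (sup_le_sup_right h _)

theorem LI_bounded [Finite σ] (ξ : σ → k) {I : Ideal (MvPolynomial σ k)} {M : ℕ}
    (h : mP ξ ^ M ≤ I) (K : ℕ) : LI ξ I K ≤ LI ξ I M := by
  rcases le_total K M with hK | hK
  · exact LI_mono ξ I hK
  · have h1 : I ⊔ mP ξ ^ K = I ⊔ mP ξ ^ M := by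
      rw [sup_eq_left.2 h, sup_eq_left.2 ((Ideal.pow_le_pow_right hK).trans h)]
    unfold LI
    rw [h1]

/-- Colon inequality. -/
theorem finrank_colon {A B : Ideal (MvPolynomial σ k)} (a : MvPolynomial σ k)
    (h : ∀ b ∈ B, a * b ∈ A) [Module.Finite k (MvPolynomial σ k ⧸ A)]
    [Module.Finite k (MvPolynomial σ k ⧸ B)] :
    Module.finrank k (MvPolynomial σ k ⧸ A) ≤
      Module.finrank k (MvPolynomial σ k ⧸ (A ⊔ Ideal.span {a})) +
      Module.finrank k (MvPolynomial σ k ⧸ B) := by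
  have hf : Module.Finite k (MvPolynomial σ k ⧸ (A ⊔ Ideal.span {a})) :=
    Module.Finite.of_surjective
      ((Ideal.Quotient.factorₐ k (le_sup_left : A ≤ A ⊔ Ideal.span {a})).toLinearMap) (by
        intro x
        obtain ⟨x, rfl⟩ := Ideal.Quotient.mk_surjective x
        exact ⟨Ideal.Quotient.mk A x, rfl⟩)
  let π := (Ideal.Quotient.factorₐ k (le_sup_left : A ≤ A ⊔ Ideal.span {a})).toLinearMap
  have hπ : Function.Surjective π := by
    intro x
    obtain ⟨x, rfl⟩ := Ideal.Quotient.mk_surjective x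
    exact ⟨Ideal.Quotient.mk A x, rfl⟩
  have h1 := LinearMap.finrank_range_add_finrank_ker π
  rw [LinearMap.range_eq_top.2 hπ, finrank_top] at h1
  have h2 : Module.finrank k (LinearMap.ker π) ≤ Module.finrank k (MvPolynomial σ k ⧸ B) := by
    let μ : (MvPolynomial σ k ⧸ B) →ₗ[k] (MvPolynomial σ k ⧸ A) :=
      (Submodule.mapQ B A (LinearMap.mulLeft (MvPolynomial σ k) a) (by
        intro b hb
        rw [Submodule.mem_comap]
        exact h b hb)).restrictScalars k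
    have h3 : LinearMap.ker π ≤ LinearMap.range μ := by
      intro x hx
      obtain ⟨x, rfl⟩ := Ideal.Quotient.mk_surjective x
      rw [LinearMap.mem_ker] at hx
      have hx' : Ideal.Quotient.mk (A ⊔ Ideal.span {a}) x = 0 := hx
      rw [Ideal.Quotient.eq_zero_iff_mem, Submodule.mem_sup] at hx'
      obtain ⟨y, hy, z, hz, rfl⟩ := hx'
      obtain ⟨c, rfl⟩ := Ideal.mem_span_singleton'.1 hz
      refine ⟨Ideal.Quotient.mk B c, ?_⟩
      change Ideal.Quotient.mk A (a * c) = Ideal.Quotient.mk A (y + c * a)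
      rw [Ideal.Quotient.eq]
      have : a * c - (y + c * a) = -y := by ring
      rw [this]
      exact (Ideal.neg_mem_iff _).2 hy
    exact (Submodule.finrank_mono h3).trans (LinearMap.finrank_range_le μ)
  omega

theorem LI_colon [Finite σ] (ξ : σ → k) {I J : Ideal (MvPolynomial σ k)} (a : MvPolynomial σ k)
    (h : ∀ b ∈ J, a * b ∈ I) (K : ℕ) :
    LI ξ I K ≤ LI ξ (I ⊔ Ideal.span {a}) K + LI ξ J K := by
  unfold LI
  have h1 := finrank_colon (A := I ⊔ mP ξ ^ K) (B := J ⊔ mP ξ ^ K) a (by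
    intro b hb
    obtain ⟨y, hy, z, hz, rfl⟩ := Submodule.mem_sup.1 hb
    rw [mul_add]
    exact Ideal.add_mem _ ((le_sup_left : I ≤ I ⊔ mP ξ ^ K) (h y hy))
      (Ideal.mul_mem_left _ _ ((le_sup_right : mP ξ ^ K ≤ I ⊔ mP ξ ^ K) hz)))
  have h2 : I ⊔ mP ξ ^ K ⊔ Ideal.span {a} = I ⊔ Ideal.span {a} ⊔ mP ξ ^ K := sup_right_comm _ _ _
  rw [h2] at h1
  exact h1

theorem LI_theta [Finite σ] (ξ : σ → k) {I : Ideal (MvPolynomial σ k)} (θ : MvPolynomial σ k)
    {w : ℕ} (h : θ ∈ mP ξ ^ w ⊔ I) (K : ℕ) :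
    LI ξ I K ≤ LI ξ (I ⊔ Ideal.span {θ}) K + LI ξ I (K - w) := by
  unfold LI
  have h1 := finrank_colon (A := I ⊔ mP ξ ^ K) (B := I ⊔ mP ξ ^ (K - w)) θ (by
    intro b hb
    obtain ⟨y, hy, z, hz, rfl⟩ := Submodule.mem_sup.1 hb
    rw [mul_add]
    refine Ideal.add_mem _ ((le_sup_left : I ≤ I ⊔ mP ξ ^ K) (Ideal.mul_mem_left _ _ hy)) ?_
    obtain ⟨t, ht, s, hs, rfl⟩ := Submodule.mem_sup.1 h
    rw [add_mul]
    refine Ideal.add_mem _ ((le_sup_right : mP ξ ^ K ≤ I ⊔ mP ξ ^ K) ?_)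
      ((le_sup_left : I ≤ I ⊔ mP ξ ^ K) (Ideal.mul_mem_right _ _ hs))
    have h3 : t * z ∈ mP ξ ^ (w + (K - w)) := by
      rw [pow_add]
      exact Ideal.mul_mem_mul ht hz
    exact Ideal.pow_le_pow_right (by omega) h3)
  have h2 : I ⊔ mP ξ ^ K ⊔ Ideal.span {θ} = I ⊔ Ideal.span {θ} ⊔ mP ξ ^ K := sup_right_comm _ _ _
  rw [h2] at h1
  exact h1

/-- Affine colon inequality: `J = (I : a)`. -/
theorem hI_colon [Finite σ] {I J : Ideal (MvPolynomial σ k)} (a : MvPolynomial σ k)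
    (h : ∀ b, b ∈ J ↔ a * b ∈ I) {δ D : ℕ} (hδ : a.totalDegree ≤ δ) (hD : δ ≤ D) :
    hI (I ⊔ Ideal.span {a}) D + hI J (D - δ) ≤ hI I D := by
  unfold hI
  let π := (Ideal.Quotient.factorₐ k (le_sup_left : I ≤ I ⊔ Ideal.span {a})).toLinearMap
  let μ : (MvPolynomial σ k ⧸ J) →ₗ[k] (MvPolynomial σ k ⧸ I) :=
    (Submodule.mapQ J I (LinearMap.mulLeft (MvPolynomial σ k) a) (by
      intro b hb
      rw [Submodule.mem_comap]
      exact (h b).1 hb)).restrictScalars k
  have hμ : Function.Injective μ := by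
    rw [← LinearMap.ker_eq_bot, Submodule.eq_bot_iff]
    intro x hx
    obtain ⟨x, rfl⟩ := Ideal.Quotient.mk_surjective x
    rw [LinearMap.mem_ker] at hx
    have hx' : Ideal.Quotient.mk I (a * x) = 0 := hx
    rw [Ideal.Quotient.eq_zero_iff_mem] at hx'
    rw [Ideal.Quotient.eq_zero_iff_mem]
    exact (h x).2 hx'
  have hW : (VI J (D - δ)).map μ ≤ VI I D := by
    rintro _ ⟨x, hx, rfl⟩
    rw [SetLike.mem_coe, mem_VI] at hx
    obtain ⟨F, hF, rfl⟩ := hx
    rw [mem_VI]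
    refine ⟨a * F, (totalDegree_mul _ _).trans (by omega), rfl⟩
  have h1 := LinearMap.finrank_range_add_finrank_ker (π.domRestrict (VI I D))
  have h2 : LinearMap.range (π.domRestrict (VI I D)) = VI (I ⊔ Ideal.span {a}) D := by
    rw [LinearMap.range_domRestrict]
    ext x
    rw [Submodule.mem_map, mem_VI]
    constructor
    · rintro ⟨y, hy, rfl⟩
      rw [mem_VI] at hy
      obtain ⟨F, hF, rfl⟩ := hy
      exact ⟨F, hF, rfl⟩
    · rintro ⟨F, hF, rfl⟩
      exact ⟨Ideal.Quotient.mk I F, by rw [mem_VI]; exact ⟨F, hF, rfl⟩, rfl⟩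
  rw [h2] at h1
  have h3 : Module.finrank k (VI J (D - δ)) ≤
      Module.finrank k (LinearMap.ker (π.domRestrict (VI I D))) := by
    have h4 : Module.finrank k (VI J (D - δ)) = Module.finrank k ((VI J (D - δ)).map μ) :=
      (LinearEquiv.finrank_eq (Submodule.equivMapOfInjective μ hμ _))
    rw [h4]
    let ι : ((VI J (D - δ)).map μ) →ₗ[k] LinearMap.ker (π.domRestrict (VI I D)) :=
      LinearMap.codRestrict _ (Submodule.inclusion hW) (by
        rintro ⟨x, hx⟩
        obtain ⟨y, hy, rfl⟩ := hx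
        obtain ⟨y, rfl⟩ := Ideal.Quotient.mk_surjective y
        rw [LinearMap.mem_ker]
        change Ideal.Quotient.mk (I ⊔ Ideal.span {a}) (a * y) = 0
        rw [Ideal.Quotient.eq_zero_iff_mem]
        exact (le_sup_right : Ideal.span {a} ≤ I ⊔ Ideal.span {a})
          (Ideal.mul_mem_right _ _ (Ideal.mem_span_singleton_self a)))
    refine LinearMap.finrank_le_finrank_of_injective (f := ι) ?_
    intro x y hxy
    have := congrArg (fun z => ((z : VI I D) : MvPolynomial σ k ⧸ I))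
      (congrArg Subtype.val hxy)
    exact Subtype.ext this
  omega

/-- (D1) Prime case: `a ∉ I`. -/
theorem hI_prime [Finite σ] {I : Ideal (MvPolynomial σ k)} [hI : I.IsPrime]
    (a : MvPolynomial σ k) (ha : a ∉ I) {δ D : ℕ} (hδ : a.totalDegree ≤ δ) (hD : δ ≤ D) :
    Pool.H76.LR.hI (I ⊔ Ideal.span {a}) D + Pool.H76.LR.hI I (D - δ) ≤ Pool.H76.LR.hI I D := by
  refine hI_colon a ?_ hδ hD
  intro b
  constructor
  · intro hb
    exact Ideal.mul_mem_left _ _ hb
  · intro hb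
    exact (hI.mem_or_mem hb).resolve_left ha

end Pool.H76.LR
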