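import Mathlib

/-!
MODULE Num: numerical part of Lemma R (sums over arithmetic progressions by induction).
-/

set_option autoImplicit false

open Filter Topology

namespace Pool.H76.LR

theorem tend_shift (a : ℝ) (n : ℕ) :
    Tendsto (fun D : ℕ => ((D : ℝ) + a) ^ n / (D : ℝ) ^ n) atTop (𝓝 1) := by
  have h1 : Tendsto (fun D : ℕ => (1 + a / (D : ℝ)) ^ n) atTop (𝓝 1) := by
    have h2 : Tendsto (fun D : ℕ => 1 + a / (D : ℝ)) atTop (𝓝 (1 + 0)) :=
      tendsto_const_nhds.add (tendsto_const_div_atTop_nhds_zero_nat a)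
    simpa using h2.pow n
  refine h1.congr' ?_
  filter_upwards [eventually_ge_atTop 1] with D hD
  have hD' : (D : ℝ) ≠ 0 := by
    have : (1 : ℝ) ≤ (D : ℝ) := by exact_mod_cast hD
    linarith
  rw [← div_pow, add_div, div_self hD']

theorem ev_lower {c a ε : ℝ} (n : ℕ) (hε : 0 < ε) :
    ∀ᶠ D : ℕ in atTop, (c - ε) * (D : ℝ) ^ n ≤ c * ((D : ℝ) - a) ^ n := by
  have h1 : Tendsto (fun D : ℕ => c * (((D : ℝ) + (-a)) ^ n / (D : ℝ) ^ n)) atTop (𝓝 (c * 1)) :=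
    (tend_shift (-a) n).const_mul c
  have h2 : ∀ᶠ D : ℕ in atTop, c - ε < c * (((D : ℝ) + (-a)) ^ n / (D : ℝ) ^ n) :=
    h1.eventually (lt_mem_nhds (by linarith))
  filter_upwards [h2, eventually_ge_atTop 1] with D hD hD1
  have hD' : (0 : ℝ) < (D : ℝ) := by
    have : (1 : ℝ) ≤ (D : ℝ) := by exact_mod_cast hD1
    linarith
  have hp : (0 : ℝ) < (D : ℝ) ^ n := pow_pos hD' n
  have h3 := mul_le_mul_of_nonneg_right hD.le hp.le
  have h4 : c * (((D : ℝ) + (-a)) ^ n / (D : ℝ) ^ n) * (D : ℝ) ^ n = c * ((D : ℝ) - a) ^ n := by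
    rw [mul_assoc, div_mul_cancel₀ _ hp.ne', sub_eq_add_neg]
  rw [h4] at h3
  exact h3

theorem ev_upper {c a M ε : ℝ} (n : ℕ) (hε : 0 < ε) :
    ∀ᶠ D : ℕ in atTop, c * ((D : ℝ) + a) ^ (n + 1) + M ≤ (c + ε) * (D : ℝ) ^ (n + 1) := by
  have h0 : Tendsto (fun D : ℕ => M / (D : ℝ) ^ (n + 1)) atTop (𝓝 0) := by
    have h := (tendsto_pow_atTop (α := ℝ) (Nat.succ_ne_zero n)).comp
      (tendsto_natCast_atTop_atTop (R := ℝ))
    exact Tendsto.div_atTop tendsto_const_nhds h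
  have h1 : Tendsto (fun D : ℕ => c * (((D : ℝ) + a) ^ (n + 1) / (D : ℝ) ^ (n + 1)) +
      M / (D : ℝ) ^ (n + 1)) atTop (𝓝 (c * 1 + 0)) :=
    ((tend_shift a (n + 1)).const_mul c).add h0
  have h2 : ∀ᶠ D : ℕ in atTop, c * (((D : ℝ) + a) ^ (n + 1) / (D : ℝ) ^ (n + 1)) +
      M / (D : ℝ) ^ (n + 1) < c + ε :=
    h1.eventually (gt_mem_nhds (by linarith))
  filter_upwards [h2, eventually_ge_atTop 1] with D hD hD1
  have hD' : (0 : ℝ) < (D : ℝ) := by
    have : (1 : ℝ) ≤ (D : ℝ) := by exact_mod_cast hD1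
    linarith
  have hp : (0 : ℝ) < (D : ℝ) ^ (n + 1) := pow_pos hD' _
  have h3 := mul_le_mul_of_nonneg_right hD.le hp.le
  have h4 : (c * (((D : ℝ) + a) ^ (n + 1) / (D : ℝ) ^ (n + 1)) + M / (D : ℝ) ^ (n + 1)) *
      (D : ℝ) ^ (n + 1) = c * ((D : ℝ) + a) ^ (n + 1) + M := by
    rw [add_mul, mul_assoc, div_mul_cancel₀ _ hp.ne', div_mul_cancel₀ _ hp.ne']
  rw [h4] at h3
  exact h3

/-- Growth of the Hilbert function of `I + (θ)`. -/
theorem growth_drop {h h' : ℕ → ℕ} {δ s : ℕ} {C : ℝ} (hmono : Monotone h')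
    (hle : ∀ D, δ ≤ D → h' D + h (D - δ) ≤ h D)
    (hC : ∀ D, (h D : ℝ) ≤ C * ((D : ℝ) + 1) ^ (s + 1)) :
    ∀ D, (h' D : ℝ) ≤ C * (1 + (δ : ℝ)) ^ (s + 1) * ((D : ℝ) + 1) ^ s := by
  intro D
  have h1 : ∀ m : ℕ, m * h' D ≤ h (D + m * δ) := by
    intro m
    induction m with
    | zero => simp
    | succ m ih =>
      have h2 := hle (D + (m + 1) * δ) (by nlinarith)
      have h3 : D + (m + 1) * δ - δ = D + m * δ := by
        have : (m + 1) * δ = m * δ + δ := by ring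
        omega
      rw [h3] at h2
      have h4 : h' D ≤ h' (D + (m + 1) * δ) := hmono (Nat.le_add_right _ _)
      have h5 : (m + 1) * h' D = m * h' D + h' D := by ring
      omega
  have h2 := h1 (D + 1)
  have h3 : (((D + 1) * h' D : ℕ) : ℝ) ≤ C * (((D + (D + 1) * δ : ℕ) : ℝ) + 1) ^ (s + 1) :=
    (by exact_mod_cast h2 : (((D + 1) * h' D : ℕ) : ℝ) ≤ (h (D + (D + 1) * δ) : ℝ)).trans (hC _)
  have h4 : ((D + (D + 1) * δ : ℕ) : ℝ) + 1 = ((D : ℝ) + 1) * (1 + (δ : ℝ)) := by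
    push_cast; ring
  rw [h4, mul_pow] at h3
  have hp : (0 : ℝ) < (D : ℝ) + 1 := by positivity
  have h5 : ((D : ℝ) + 1) * (h' D : ℝ) ≤
      ((D : ℝ) + 1) * (C * (1 + (δ : ℝ)) ^ (s + 1) * ((D : ℝ) + 1) ^ s) := by
    calc ((D : ℝ) + 1) * (h' D : ℝ) = (((D + 1) * h' D : ℕ) : ℝ) := by push_cast; ring
      _ ≤ C * (((D : ℝ) + 1) ^ (s + 1) * (1 + (δ : ℝ)) ^ (s + 1)) := h3
      _ = _ := by ring
  exact le_of_mul_le_mul_left h5 hp

theorem pow_diff_le {a b : ℝ} (hb : 0 ≤ b) (hab : b ≤ a) (s : ℕ) :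
    a ^ (s + 1) - b ^ (s + 1) ≤ (s + 1) * (a - b) * a ^ s := by
  induction s with
  | zero => simp
  | succ s ih =>
    have ha : 0 ≤ a := hb.trans hab
    have h1 : a ^ (s + 1 + 1) - b ^ (s + 1 + 1) =
        a * (a ^ (s + 1) - b ^ (s + 1)) + (a - b) * b ^ (s + 1) := by ring
    have h2 : b ^ (s + 1) ≤ a ^ (s + 1) := pow_le_pow_left₀ hb hab _
    have h3 := mul_le_mul_of_nonneg_left ih ha
    have h4 := mul_le_mul_of_nonneg_left h2 (sub_nonneg.2 hab)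
    rw [h1]
    have h5 : a * (((s : ℝ) + 1) * (a - b) * a ^ s) = ((s : ℝ) + 1) * (a - b) * a ^ (s + 1) := by
      ring
    rw [h5] at h3
    push_cast
    nlinarith

/-- Lower bound by induction along the progression. -/
theorem lower_sum {h h' : ℕ → ℕ} {δ s D0 : ℕ} {c : ℝ} (hc : 0 ≤ c) (hδ : 1 ≤ δ)
    (hle : ∀ D, δ ≤ D → h' D + h (D - δ) ≤ h D)
    (hlow : ∀ D, D0 ≤ D → c * ((s : ℝ) + 1) * (δ : ℝ) * (D : ℝ) ^ s ≤ (h' D : ℝ)) :
    ∀ D : ℕ, c * (max ((D : ℝ) - ((D0 : ℝ) + (δ : ℝ))) 0) ^ (s + 1) ≤ (h D : ℝ) := by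
  intro D
  induction D using Nat.strong_induction_on with
  | _ D ih =>
    rcases le_or_gt D (D0 + δ) with hD | hD
    · have : (D : ℝ) - ((D0 : ℝ) + (δ : ℝ)) ≤ 0 := by
        have : (D : ℝ) ≤ (D0 : ℝ) + (δ : ℝ) := by exact_mod_cast hD
        linarith
      rw [max_eq_right this]
      simp
    · have h1 := hle D (by omega)
      have h2 := ih (D - δ) (by omega)
      have h3 := hlow D (by omega)
      have hcast : ((D - δ : ℕ) : ℝ) = (D : ℝ) - (δ : ℝ) := by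
        rw [Nat.cast_sub (by omega)]
      rw [hcast] at h2
      set a : ℝ := (D : ℝ) - ((D0 : ℝ) + (δ : ℝ)) with ha
      have ha0 : 0 ≤ a := by
        have : (D0 : ℝ) + (δ : ℝ) ≤ (D : ℝ) := by exact_mod_cast hD.le
        linarith
      have hb : max ((D : ℝ) - (δ : ℝ) - ((D0 : ℝ) + (δ : ℝ))) 0 = max (a - δ) 0 := by
        congr 1
        rw [ha]; ring
      rw [hb] at h2
      rw [max_eq_left ha0]
      set b : ℝ := max (a - δ) 0 with hbdef
      have hb0 : 0 ≤ b := le_max_right _ _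
      have hδ0 : (0 : ℝ) ≤ (δ : ℝ) := Nat.cast_nonneg _
      have hba : b ≤ a := max_le (by linarith) ha0
      have hab : a - b ≤ δ := by
        have := le_max_left (a - (δ : ℝ)) 0
        linarith
      have h4 := pow_diff_le hb0 hba s
      have h5 : a ≤ (D : ℝ) := by
        have : (0 : ℝ) ≤ (D0 : ℝ) := Nat.cast_nonneg _
        linarith
      have h6 : a ^ s ≤ (D : ℝ) ^ s := pow_le_pow_left₀ ha0 h5 _
      have h7 : ((s : ℝ) + 1) * (a - b) * a ^ s ≤ ((s : ℝ) + 1) * (δ : ℝ) * (D : ℝ) ^ s := by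
        have : 0 ≤ a - b := sub_nonneg.2 hba
        gcongr
      have h8 : c * (a ^ (s + 1) - b ^ (s + 1)) ≤ c * (((s : ℝ) + 1) * (δ : ℝ) * (D : ℝ) ^ s) :=
        mul_le_mul_of_nonneg_left (h4.trans h7) hc
      have h9 : (h' D : ℝ) + (h (D - δ) : ℝ) ≤ (h D : ℝ) := by exact_mod_cast h1
      nlinarith

/-- Upper bound by induction along the progression. -/
theorem upper_sum {L L' : ℕ → ℕ} {w s K0 : ℕ} {c M : ℝ} (hc : 0 ≤ c) (hw : 1 ≤ w)
    (hle : ∀ K, L K ≤ L' K + L (K - w)) (h0 : L 0 = 0)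
    (hup : ∀ K, K0 ≤ K → (L' K : ℝ) ≤ c * ((s : ℝ) + 1) * (w : ℝ) * (K : ℝ) ^ s)
    (hM : ∀ K, K < K0 → (L K : ℝ) ≤ M) (hM0 : 0 ≤ M) :
    ∀ K : ℕ, (L K : ℝ) ≤ c * ((K : ℝ) + (w : ℝ)) ^ (s + 1) + M := by
  intro K
  induction K using Nat.strong_induction_on with
  | _ K ih =>
    have hK0 : (0 : ℝ) ≤ (K : ℝ) := Nat.cast_nonneg _
    have hw0 : (0 : ℝ) ≤ (w : ℝ) := Nat.cast_nonneg _
    rcases lt_or_ge K K0 with hK | hK
    · have h1 := hM K hK
      have h2 : 0 ≤ c * ((K : ℝ) + (w : ℝ)) ^ (s + 1) := by positivity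
      linarith
    · have hbern : ∀ x : ℝ, 0 ≤ x → ∀ n : ℕ,
          x ^ (n + 1) + ((n : ℝ) + 1) * (w : ℝ) * x ^ n ≤ (x + (w : ℝ)) ^ (n + 1) := by
        intro x hx n
        induction n with
        | zero => simp
        | succ n ihn =>
          have e1 : (x + (w : ℝ)) ^ (n + 1 + 1) = (x + w) * (x + (w : ℝ)) ^ (n + 1) := by ring
          have e2 : (x + w) * (x ^ (n + 1) + ((n : ℝ) + 1) * (w : ℝ) * x ^ n) ≤
              (x + w) * (x + (w : ℝ)) ^ (n + 1) :=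
            mul_le_mul_of_nonneg_left ihn (by positivity)
          have e3 : 0 ≤ ((n : ℝ) + 1) * (w : ℝ) * (w : ℝ) * x ^ n := by positivity
          have e4 : (x + w) * (x ^ (n + 1) + ((n : ℝ) + 1) * (w : ℝ) * x ^ n) =
              x ^ (n + 1 + 1) + ((n : ℝ) + 1 + 1) * (w : ℝ) * x ^ (n + 1) +
              ((n : ℝ) + 1) * (w : ℝ) * (w : ℝ) * x ^ n := by ring
          rw [e1]
          push_cast
          linarith
      have hb := hbern (K : ℝ) hK0 s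
      have h3 : (L K : ℝ) ≤ (L' K : ℝ) + (L (K - w) : ℝ) := by exact_mod_cast hle K
      have h4 := hup K hK
      have hcb : c * ((K : ℝ) ^ (s + 1) + ((s : ℝ) + 1) * (w : ℝ) * (K : ℝ) ^ s) ≤
          c * ((K : ℝ) + (w : ℝ)) ^ (s + 1) := mul_le_mul_of_nonneg_left hb hc
      have hcK : 0 ≤ c * (K : ℝ) ^ (s + 1) := by positivity
      rcases lt_or_ge K w with hKw | hKw
      · have h5 : K - w = 0 := by omega
        rw [h5, h0] at h3
        push_cast at h3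
        nlinarith
      · rcases Nat.eq_zero_or_pos K with hz | hz
        · omega
        · have h5 := ih (K - w) (by omega)
          have hcast : ((K - w : ℕ) : ℝ) + (w : ℝ) = (K : ℝ) := by
            rw [Nat.cast_sub hKw]; ring
          rw [hcast] at h5
          nlinarith

end Pool.H76.LR
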