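import Pool.Agent.H76.LR.Basic
import Pool.Agent.H76.LR.Num

/-!
MODULE Main: Lemma R of helper62 (uniform bound for multiplicity / degree).
-/

set_option autoImplicit false

open MvPolynomial Filter Topology

namespace Pool.H76.LR

variable {k : Type*} [Field k] {σ : Type*}

theorem rho_nonneg {α : Type*} (l : List (α × ℕ × ℕ)) (r : ℕ) : 0 ≤ rho l r := by
  induction l generalizing r with
  | nil => cases r <;> simp [rho]
  | cons x l ih =>
    obtain ⟨θ, δ, w⟩ := x
    cases r with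
    | zero => simp [rho]
    | succ r => exact (ih (r + 1)).trans (le_max_left _ _)

theorem rho_zero {α : Type*} (l : List (α × ℕ × ℕ)) : rho l 0 = 1 := by
  cases l with
  | nil => rfl
  | cons x l => rfl

theorem Con.mono {ξ : σ → k} {I : Ideal (MvPolynomial σ k)} {r : ℕ} {ρ ρ' : ℝ}
    (h : Con ξ I r ρ) (hρ : ρ ≤ ρ') : Con ξ I r ρ' := by
  obtain ⟨d, hd, h1, h2⟩ := h
  refine ⟨d, hd, h1, fun ε hε => ?_⟩
  filter_upwards [h2 ε hε] with K hK
  refine hK.trans ?_
  have h3 : ρ * d ≤ ρ' * d := mul_le_mul_of_nonneg_right hρ hd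
  have h4 : (0 : ℝ) ≤ (K : ℝ) ^ r := by positivity
  nlinarith

theorem Con.top (ξ : σ → k) (r : ℕ) {ρ : ℝ} :
    Con ξ (⊤ : Ideal (MvPolynomial σ k)) r ρ := by
  refine ⟨0, le_rfl, fun ε hε => ?_, fun ε hε => ?_⟩
  · refine Eventually.of_forall fun D => ?_
    rw [hI_top]
    have : (0 : ℝ) ≤ (D : ℝ) ^ r := by positivity
    push_cast
    nlinarith
  · refine Eventually.of_forall fun K => ?_
    have h0 : LI ξ (⊤ : Ideal (MvPolynomial σ k)) K = 0 := by
      unfold LI
      have : Subsingleton (MvPolynomial σ k ⧸ ((⊤ : Ideal (MvPolynomial σ k)) ⊔ mP ξ ^ K)) :=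
        Ideal.Quotient.subsingleton_iff.2 (top_sup_eq _)
      exact Module.finrank_zero_of_subsingleton
    rw [h0]
    have : (0 : ℝ) ≤ (K : ℝ) ^ r := by positivity
    push_cast
    nlinarith

/-- Dimension zero. -/
theorem Con.zero [Finite σ] (ξ : σ → k) (I : Ideal (MvPolynomial σ k)) {C : ℝ}
    (hC : ∀ D, (hI I D : ℝ) ≤ C) : Con ξ I 0 1 := by
  have hbd : BddAbove (Set.range (hI I)) := by
    refine ⟨⌈C⌉₊, ?_⟩
    rintro _ ⟨D, rfl⟩
    exact_mod_cast (hC D).trans (Nat.le_ceil C)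
  obtain ⟨D0, hD0⟩ : ∃ D0, hI I D0 = sSup (Set.range (hI I)) :=
    Nat.sSup_mem (Set.range_nonempty _) hbd
  have hmax : ∀ D, hI I D ≤ hI I D0 := fun D => by
    rw [hD0]
    exact le_csSup hbd ⟨D, rfl⟩
  refine ⟨hI I D0, Nat.cast_nonneg _, fun ε hε => ?_, fun ε hε => ?_⟩
  · filter_upwards [eventually_ge_atTop D0] with D hD
    have h1 : hI I D = hI I D0 := le_antisymm (hmax D) (hI_mono I hD)
    rw [h1, pow_zero]
    linarith
  · refine Eventually.of_forall fun K => ?_
    have h1 : LI ξ I K ≤ hI I D0 :=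
      (LI_mono ξ I (Nat.le_succ K)).trans ((LI_le_hI ξ I K).trans (hmax K))
    have h2 : (LI ξ I K : ℝ) ≤ (hI I D0 : ℝ) := by exact_mod_cast h1
    rw [pow_zero]
    linarith

/-- Additivity. -/
theorem Con.add {ξ : σ → k} {I J J' : Ideal (MvPolynomial σ k)} {r : ℕ} {ρ : ℝ} {δ : ℕ}
    (hJ : Con ξ J r ρ) (hJ' : Con ξ J' r ρ)
    (h : ∀ D, δ ≤ D → hI J D + hI J' (D - δ) ≤ hI I D)
    (hL : ∀ K, LI ξ I K ≤ LI ξ J K + LI ξ J' K) : Con ξ I r ρ := by
  obtain ⟨d, hd, h1, h2⟩ := hJ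
  obtain ⟨d', hd', h1', h2'⟩ := hJ'
  refine ⟨d + d', add_nonneg hd hd', fun ε hε => ?_, fun ε hε => ?_⟩
  · have hsh : ∀ᶠ D : ℕ in atTop, (d' - ε / 2) * (D : ℝ) ^ r ≤ (hI J' (D - δ) : ℝ) := by
      have e1 : ∀ᶠ D : ℕ in atTop, (d' - ε / 4) * ((D - δ : ℕ) : ℝ) ^ r ≤ (hI J' (D - δ) : ℝ) :=
        (tendsto_sub_atTop_nat δ).eventually (h1' (ε / 4) (by linarith))
      have e2 := ev_lower (c := d' - ε / 4) (a := (δ : ℝ)) r (show (0 : ℝ) < ε / 4 by linarith)
      filter_upwards [e1, e2, eventually_ge_atTop δ] with D hD1 hD2 hD3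
      rw [Nat.cast_sub hD3] at hD1
      have : d' - ε / 4 - ε / 4 = d' - ε / 2 := by ring
      rw [this] at hD2
      exact hD2.trans hD1
    filter_upwards [h1 (ε / 2) (by linarith), hsh, eventually_ge_atTop δ] with D hD1 hD2 hD3
    have h3 : (hI J D : ℝ) + (hI J' (D - δ) : ℝ) ≤ (hI I D : ℝ) := by exact_mod_cast h D hD3
    nlinarith
  · filter_upwards [h2 (ε / 2) (by linarith), h2' (ε / 2) (by linarith)] with K hK1 hK2
    have h3 : (LI ξ I K : ℝ) ≤ (LI ξ J K : ℝ) + (LI ξ J' K : ℝ) := by exact_mod_cast hL K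
    nlinarith

/-- The step by one polynomial. -/
theorem Con.step {ξ : σ → k} {I J : Ideal (MvPolynomial σ k)} {s : ℕ} {ρ : ℝ} {δ w : ℕ}
    (hρ : 0 ≤ ρ) (hδ : 1 ≤ δ) (hw : 1 ≤ w) (hJ : Con ξ J s ρ)
    (h : ∀ D, δ ≤ D → hI J D + hI I (D - δ) ≤ hI I D)
    (hL : ∀ K, LI ξ I K ≤ LI ξ J K + LI ξ I (K - w)) :
    Con ξ I (s + 1) ((δ : ℝ) / (w : ℝ) * ρ) := by
  obtain ⟨d, hd, h1, h2⟩ := hJ
  have hδ' : (0 : ℝ) < (δ : ℝ) := by exact_mod_cast hδ
  have hw' : (0 : ℝ) < (w : ℝ) := by exact_mod_cast hw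
  have hs' : (0 : ℝ) < (s : ℝ) + 1 := by positivity
  refine ⟨d / (δ * ((s : ℝ) + 1)), by positivity, fun ε hε => ?_, fun ε hε => ?_⟩
  · set c0 := d / (δ * ((s : ℝ) + 1)) with hc0
    set c := max (c0 - ε / 2) 0 with hc
    have hc0' : 0 ≤ c := le_max_right _ _
    have hlow : ∀ᶠ D : ℕ in atTop, c * ((s : ℝ) + 1) * (δ : ℝ) * (D : ℝ) ^ s ≤ (hI J D : ℝ) := by
      rcases le_or_gt (c0 - ε / 2) 0 with hneg | hpos
      · rw [hc, max_eq_right hneg]
        refine Eventually.of_forall fun D => ?_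
        simp
      · have e1 := h1 (((s : ℝ) + 1) * δ * (ε / 2)) (by positivity)
        filter_upwards [e1] with D hD
        refine le_trans (le_of_eq ?_) hD
        rw [hc, max_eq_left hpos.le, hc0]
        field_simp
    obtain ⟨D0, hD0⟩ := eventually_atTop.1 hlow
    have h3 := lower_sum (h := hI I) (h' := hI J) (δ := δ) (s := s) (D0 := D0) hc0' hδ h
      (fun D hD => hD0 D hD)
    have e2 := ev_lower (c := c) (a := (D0 : ℝ) + (δ : ℝ)) (s + 1)
      (show (0 : ℝ) < ε / 2 by linarith)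
    filter_upwards [e2, eventually_ge_atTop (D0 + δ)] with D hD1 hD2
    have h4 := h3 D
    have h5 : 0 ≤ (D : ℝ) - ((D0 : ℝ) + (δ : ℝ)) := by
      have : ((D0 + δ : ℕ) : ℝ) ≤ (D : ℝ) := by exact_mod_cast hD2
      push_cast at this
      linarith
    rw [max_eq_left h5] at h4
    have h6 : c0 - ε ≤ c - ε / 2 := by
      have := le_max_left (c0 - ε / 2) 0
      linarith
    have h7 : (0 : ℝ) ≤ (D : ℝ) ^ (s + 1) := by positivity
    nlinarith
  · set c0 := (δ : ℝ) / (w : ℝ) * ρ * (d / (δ * ((s : ℝ) + 1))) with hc0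
    have hc00 : 0 ≤ c0 := by positivity
    have hup : ∀ᶠ K : ℕ in atTop,
        (LI ξ J K : ℝ) ≤ (c0 + ε / 2) * ((s : ℝ) + 1) * (w : ℝ) * (K : ℝ) ^ s := by
      have e1 := h2 (((s : ℝ) + 1) * w * (ε / 2)) (by positivity)
      filter_upwards [e1] with K hK
      refine hK.trans (le_of_eq ?_)
      rw [hc0]
      field_simp
    obtain ⟨K0, hK0⟩ := eventually_atTop.1 hup
    have h3 := upper_sum (L := LI ξ I) (L' := LI ξ J) (w := w) (s := s) (K0 := K0)
      (c := c0 + ε / 2) (M := ∑ K ∈ Finset.range K0, (LI ξ I K : ℝ)) (by linarith) hw hL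
      (LI_zero ξ I) (fun K hK => hK0 K hK)
      (fun K hK => Finset.single_le_sum (f := fun K => (LI ξ I K : ℝ))
        (fun i _ => Nat.cast_nonneg _) (Finset.mem_range.2 hK))
      (Finset.sum_nonneg fun i _ => Nat.cast_nonneg _)
    have e2 := ev_upper (c := c0 + ε / 2) (a := (w : ℝ))
      (M := ∑ K ∈ Finset.range K0, (LI ξ I K : ℝ)) s (show (0 : ℝ) < ε / 2 by linarith)
    filter_upwards [e2] with K hK
    refine (h3 K).trans (hK.trans (le_of_eq ?_))
    ring

/-- LEMMA R. -/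
theorem lemma_R [Finite σ] (ξ : σ → k) (l : List (MvPolynomial σ k × ℕ × ℕ)) :
    ∀ J : Ideal (MvPolynomial σ k), Adm ξ J l → ∀ I : Ideal (MvPolynomial σ k), J ≤ I →
      ∀ (r : ℕ) (C : ℝ), (∀ D, (hI I D : ℝ) ≤ C * ((D : ℝ) + 1) ^ r) → Con ξ I r (rho l r) := by
  induction l with
  | nil =>
    intro J hJ I hI' r C hC
    cases r with
    | zero =>
      rw [rho_zero]
      exact Con.zero ξ I (C := C) (by simpa using hC)
    | succ r =>
      obtain ⟨M, hM⟩ := hJ
      refine ⟨0, le_rfl, fun ε hε => ?_, fun ε hε => ?_⟩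
      · refine Eventually.of_forall fun D => ?_
        have : (0 : ℝ) ≤ (D : ℝ) ^ (r + 1) := by positivity
        have h2 : (0 : ℝ) ≤ (hI I D : ℝ) := Nat.cast_nonneg _
        nlinarith
      · have e1 := ev_upper (c := 0) (a := 0) (M := (LI ξ I M : ℝ)) r hε
        filter_upwards [e1] with K hK
        have h1 : (LI ξ I K : ℝ) ≤ (LI ξ I M : ℝ) := by
          exact_mod_cast LI_bounded ξ (hM.trans hI') K
        rw [zero_mul, zero_add, zero_add] at hK
        rw [mul_zero, zero_add]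
        exact h1.trans hK
  | cons x l ihl =>
    obtain ⟨θ, δ, w⟩ := x
    intro J hJ I
    obtain ⟨hθ, hdeg, hδ, hw, hadm⟩ := hJ
    -- Noetherian induction on `I`
    induction I using IsNoetherian.induction with
    | hgt I ih =>
      intro hI' r C hC
      cases r with
      | zero =>
        rw [rho_zero]
        exact Con.zero ξ I (C := C) (by simpa using hC)
      | succ r =>
        by_cases htop : I = ⊤
        · rw [htop]
          exact Con.top ξ _
        by_cases hprime : Ideal.IsPrime I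
        · by_cases hθI : θ ∈ I
          · have h1 : J ⊔ Ideal.span {θ} ≤ I :=
              sup_le hI' (by rw [Ideal.span_singleton_le_iff_mem]; exact hθI)
            exact (ihl _ hadm I h1 (r + 1) C hC).mono (le_max_left _ _)
          · have hle : ∀ D, δ ≤ D → hI (I ⊔ Ideal.span {θ}) D + hI I (D - δ) ≤ hI I D :=
              fun D hD => hI_prime θ hθI hdeg hD
            have hgrow := growth_drop (h := hI I) (h' := hI (I ⊔ Ideal.span {θ})) (δ := δ)
              (s := r) (fun _ _ hab => hI_mono _ hab) hle hC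
            have h2 := ihl _ hadm (I ⊔ Ideal.span {θ}) (sup_le_sup_right hI' _) r _ hgrow
            refine (Con.step (rho_nonneg l r) hδ hw h2 hle ?_).mono (le_max_right _ _)
            intro K
            exact LI_theta ξ θ ((sup_le_sup_left hI' _ : mP ξ ^ w ⊔ J ≤ mP ξ ^ w ⊔ I) hθ) K
        · obtain ⟨a, ha, b, hb, hab⟩ : ∃ a, a ∉ I ∧ ∃ b, b ∉ I ∧ a * b ∈ I := by
            by_contra hcon
            push Not at hcon
            refine hprime ⟨htop, fun {x y} hxy => ?_⟩
            by_contra hxy'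
            rw [not_or] at hxy'
            exact hcon x hxy'.1 y hxy'.2 hxy
          set J' : Ideal (MvPolynomial σ k) := Submodule.comap
            (LinearMap.mulLeft (MvPolynomial σ k) a) I with hJ'
          have hmem : ∀ c, c ∈ J' ↔ a * c ∈ I := fun c => by
            rw [hJ', Submodule.mem_comap]; rfl
          have hlt1 : I < I ⊔ Ideal.span {a} := by
            refine lt_of_le_of_ne le_sup_left fun heq => ha ?_
            rw [heq]
            exact (le_sup_right : Ideal.span {a} ≤ I ⊔ Ideal.span {a})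
              (Ideal.mem_span_singleton_self a)
          have hIJ' : I ≤ J' := fun c hc => (hmem c).2 (Ideal.mul_mem_left _ _ hc)
          have hlt2 : I < J' := by
            refine lt_of_le_of_ne hIJ' fun heq => hb ?_
            rw [heq]
            exact (hmem b).2 hab
          have hC1 : ∀ D, (hI (I ⊔ Ideal.span {a}) D : ℝ) ≤ C * ((D : ℝ) + 1) ^ (r + 1) :=
            fun D => (by exact_mod_cast hI_anti hlt1.le D : (hI (I ⊔ Ideal.span {a}) D : ℝ) ≤
              (hI I D : ℝ)).trans (hC D)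
          have hC2 : ∀ D, (hI J' D : ℝ) ≤ C * ((D : ℝ) + 1) ^ (r + 1) :=
            fun D => (by exact_mod_cast hI_anti hlt2.le D : (hI J' D : ℝ) ≤
              (hI I D : ℝ)).trans (hC D)
          refine Con.add (δ := a.totalDegree) (ih _ hlt1 (hI'.trans hlt1.le) (r + 1) C hC1)
            (ih _ hlt2 (hI'.trans hlt2.le) (r + 1) C hC2) ?_ ?_
          · intro D hD
            exact hI_colon a hmem le_rfl hD
          · intro K
            exact LI_colon ξ a (fun c hc => (hmem c).1 hc) K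

end Pool.H76.LR
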