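import Mathlib

/-!
MP_4f0605_nt (helper62, helper76): Lemma R of /team-store/helper62_n64_paper.md, definitions.
Affine Hilbert function `hI I D`, local Hilbert function `LI ξ I K` at the point `ξ`.
-/

set_option autoImplicit false

open MvPolynomial Filter

namespace Pool.H76.LR

noncomputable section

variable {k : Type*} [Field k] {σ : Type*}

/-- The image of the polynomials of total degree at most `D` in the quotient by `I`. -/
def VI (I : Ideal (MvPolynomial σ k)) (D : ℕ) : Submodule k (MvPolynomial σ k ⧸ I) :=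
  (restrictTotalDegree σ k D).map (Ideal.Quotient.mkₐ k I).toLinearMap

/-- Affine Hilbert function. -/
def hI (I : Ideal (MvPolynomial σ k)) (D : ℕ) : ℕ := Module.finrank k (VI I D)

/-- The ideal of the point `ξ`. -/
def mP (ξ : σ → k) : Ideal (MvPolynomial σ k) :=
  Ideal.span (Set.range fun i => X i - C (ξ i))

/-- Local Hilbert function at `ξ`. -/
def LI (ξ : σ → k) (I : Ideal (MvPolynomial σ k)) (K : ℕ) : ℕ :=
  Module.finrank k (MvPolynomial σ k ⧸ (I ⊔ mP ξ ^ K))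

/-- Admissible lists of triples `(θ, δ, w)`: `θ` has degree `≤ δ` and order `≥ w` at `ξ` modulo the previous
ones and `J`; at the end `ξ` is isolated. -/
def Adm (ξ : σ → k) : Ideal (MvPolynomial σ k) → List (MvPolynomial σ k × ℕ × ℕ) → Prop
  | J, [] => ∃ M : ℕ, mP ξ ^ M ≤ J
  | J, (θ, δ, w) :: l => θ ∈ mP ξ ^ w ⊔ J ∧ θ.totalDegree ≤ δ ∧ 1 ≤ δ ∧ 1 ≤ w ∧
      Adm ξ (J ⊔ Ideal.span {θ}) l

/-- Largest product of `r` of the quotients `δ/w` (`0` if there are fewer than `r`). -/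
def rho {α : Type*} : List (α × ℕ × ℕ) → ℕ → ℝ
  | _, 0 => 1
  | [], _ + 1 => 0
  | (_, δ, w) :: l, r + 1 => max (rho l (r + 1)) ((δ : ℝ) / (w : ℝ) * rho l r)

/-- The conclusion of Lemma R. -/
def Con (ξ : σ → k) (I : Ideal (MvPolynomial σ k)) (r : ℕ) (ρ : ℝ) : Prop :=
  ∃ d : ℝ, 0 ≤ d ∧ (∀ ε > 0, ∀ᶠ D : ℕ in atTop, (d - ε) * (D : ℝ) ^ r ≤ (hI I D : ℝ)) ∧
    ∀ ε > 0, ∀ᶠ K : ℕ in atTop, (LI ξ I K : ℝ) ≤ (ρ * d + ε) * (K : ℝ) ^ r

end

end Pool.H76.LR
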